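import Pool.Agent.Helper53.WR.Defs

set_option autoImplicit false
set_option linter.unusedVariables false

namespace Pool.Agent.Helper7.WR

open Finset
open Pool.Agent.Helper3.Thin (dig und off Lab GoodSet)
open Pool.Agent.Helper53.WR

open Classical in
/-- One element of the given residue class with given label and index. -/
noncomputable def gf {q : ℕ} (T : Finset ℕ) (S m r : ℕ)
    (τ : ZMod q × ZMod q → ZMod q × ZMod q)
    (σ : (ZMod q × ZMod q) × (ZMod q × ZMod q) → ℕ) (ε : Lab)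
    (p : (ZMod q × ZMod q) × (ZMod q × ZMod q)) : ℕ :=
  if h' : ∃ t ∈ T, (elt S τ σ p ε t) % m = r then elt S τ σ p ε h'.choose else 0

lemma gf_eq {q : ℕ} (T : Finset ℕ) (S m r : ℕ) (hc : Nat.Coprime q m) (hT : ∀ t ∈ T, t < m)
    (τ : ZMod q × ZMod q → ZMod q × ZMod q)
    (σ : (ZMod q × ZMod q) × (ZMod q × ZMod q) → ℕ) (ε : Lab)
    (p : (ZMod q × ZMod q) × (ZMod q × ZMod q)) (t : ℕ) (ht : t ∈ T)
    (hbr : (elt S τ σ p ε t) % m = r) : gf T S m r τ σ ε p = elt S τ σ p ε t := by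
  have hex : ∃ t ∈ T, (elt S τ σ p ε t) % m = r := ⟨t, ht, hbr⟩
  unfold gf
  rw [dif_pos hex]
  have hs := hex.choose_spec
  have e5 : elt S τ σ p ε hex.choose ≡ elt S τ σ p ε t [MOD m] := by
    unfold Nat.ModEq
    rw [hs.2, hbr]
  unfold elt at e5
  have e6 := Nat.ModEq.add_left_cancel' _ e5
  have hcop : Nat.gcd m (q ^ 4) = 1 := (Nat.Coprime.pow_left 4 hc).symm
  have e7 := Nat.ModEq.cancel_left_of_coprime hcop e6
  have e8 := Nat.ModEq.add_left_cancel' _ e7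
  have e9 : hex.choose = t := Nat.ModEq.eq_of_lt_of_lt e8 (hT _ hs.1) (hT _ ht)
  rw [e9]

lemma res_eq {q : ℕ} (S m r : ℕ) (hm : 0 < m)
    (τ : ZMod q × ZMod q → ZMod q × ZMod q)
    (σ : (ZMod q × ZMod q) × (ZMod q × ZMod q) → ℕ) (ε : Lab)
    (p : (ZMod q × ZMod q) × (ZMod q × ZMod q)) (t : ℕ)
    (hbr : (elt S τ σ p ε t) % m = r) :
    (und p.1 (p.2 + τ p.1) + q ^ 4 * (S + σ p + t)) % m = (r + (m - off q ε % m)) % m := by
  have hlt : off q ε % m < m := Nat.mod_lt _ hm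
  have e1 : (und p.1 (p.2 + τ p.1) + q ^ 4 * (S + σ p + t)) + off q ε ≡ r [MOD m] := by
    have : elt S τ σ p ε t = (und p.1 (p.2 + τ p.1) + q ^ 4 * (S + σ p + t)) + off q ε := by
      unfold elt; ring
    rw [← this]
    unfold Nat.ModEq
    rw [← hbr, Nat.mod_mod]
  have e2 : off q ε + (m - off q ε % m) ≡ 0 [MOD m] := by
    have h1 : off q ε ≡ off q ε % m [MOD m] := (Nat.mod_modEq _ _).symm
    have h2 : off q ε + (m - off q ε % m) ≡ off q ε % m + (m - off q ε % m) [MOD m] :=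
      Nat.ModEq.add_right _ h1
    refine h2.trans ?_
    rw [Nat.add_sub_cancel' hlt.le]
    unfold Nat.ModEq
    simp
  have e3 := Nat.ModEq.add_right (m - off q ε % m) e1
  rw [add_assoc] at e3
  have e4 := (Nat.ModEq.add_left (und p.1 (p.2 + τ p.1) + q ^ 4 * (S + σ p + t)) e2).symm.trans e3
  rw [add_zero] at e4
  exact e4

lemma mem_World {q : ℕ} (Γ : Finset (ZMod q × ZMod q)) (T : Finset ℕ) (S : ℕ)
    (τ : ZMod q × ZMod q → ZMod q × ZMod q)
    (σ : (ZMod q × ZMod q) × (ZMod q × ZMod q) → ℕ) (b : ℕ) (hbW : b ∈ World Γ T S τ σ) :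
    ∃ p ∈ Γ ×ˢ Γ, ∃ ε : Lab, ∃ t ∈ T, elt S τ σ p ε t = b := by
  unfold World at hbW
  have hi := mem_image.mp hbW
  cases hi with
  | intro x hx =>
    have h1 := hx.1
    unfold Ind at h1
    exact ⟨x.1.1, (mem_product.mp (mem_product.mp h1).1).1, x.1.2, x.2,
      (mem_product.mp h1).2, hx.2⟩

lemma gen {L P : Type} [Fintype L] (W : Finset ℕ) (F : L → Finset P) (g : L → P → ℕ) (Y : ℕ)
    (hF : ∀ ε, (F ε).card ≤ Y) (hW : ∀ b ∈ W, ∃ ε, ∃ p, p ∈ F ε ∧ g ε p = b) :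
    W.card ≤ Fintype.card L * Y := by
  classical
  have hsub : W ⊆ (univ : Finset L).biUnion (fun ε => (F ε).image (fun p => g ε p)) := by
    intro b hb
    obtain ⟨ε, p, hp, he⟩ := hW b hb
    exact mem_biUnion.mpr ⟨ε, mem_univ _, mem_image.mpr ⟨p, hp, he⟩⟩
  calc W.card ≤ _ := card_le_card hsub
    _ ≤ _ := card_biUnion_le
    _ ≤ ∑ ε : L, Y := by
        apply sum_le_sum
        intro ε _
        exact (card_image_le).trans (hF _)
    _ = Fintype.card L * Y := by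
        rw [sum_const, smul_eq_mul, card_univ]

lemma key_ex {q : ℕ} (Γ : Finset (ZMod q × ZMod q)) (T : Finset ℕ) (S m r : ℕ)
    (hm : 0 < m) (hc : Nat.Coprime q m) (hT : ∀ t ∈ T, t < m)
    (τ : ZMod q × ZMod q → ZMod q × ZMod q)
    (σ : (ZMod q × ZMod q) × (ZMod q × ZMod q) → ℕ) (b : ℕ) (hbW : b ∈ World Γ T S τ σ)
    (hbr : b % m = r) :
    ∃ ε : Lab, ∃ p, p ∈ Γ ×ˢ Γ ∧ (∃ t ∈ T,
        (und p.1 (p.2 + τ p.1) + q ^ 4 * (S + σ p + t)) % m =
          (r + (m - off q ε % m)) % m) ∧ gf T S m r τ σ ε p = b := by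
  obtain ⟨p, hp, ε, t, ht, hb2⟩ := mem_World Γ T S τ σ b hbW
  rw [← hb2] at hbr
  rw [← hb2]
  exact ⟨ε, p, hp, ⟨t, ht, res_eq S m r hm τ σ ε p t hbr⟩, gf_eq T S m r hc hT τ σ ε p t ht hbr⟩

/-- WR-C3 (residue classes in a world). -/
theorem world_residue {q : ℕ} [Fact q.Prime] (Γ : Finset (ZMod q × ZMod q))
    (T : Finset ℕ) (S m Y : ℕ) (hm : 0 < m) (hc : Nat.Coprime q m) (hT : ∀ t ∈ T, t < m)
    (τ : ZMod q × ZMod q → ZMod q × ZMod q)
    (σ : (ZMod q × ZMod q) × (ZMod q × ZMod q) → ℕ)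
    (h : ∀ r : ℕ, ((Γ ×ˢ Γ).filter (fun p => ∃ t ∈ T,
        (und p.1 (p.2 + τ p.1) + q ^ 4 * (S + σ p + t)) % m = r % m)).card ≤ Y) (r : ℕ) :
    ((World Γ T S τ σ).filter (fun b => b % m = r)).card ≤ 4096 * Y := by
  have hc := gen ((World Γ T S τ σ).filter (fun b => b % m = r))
    (fun ε : Lab => (Γ ×ˢ Γ).filter (fun p => ∃ t ∈ T,
        (und p.1 (p.2 + τ p.1) + q ^ 4 * (S + σ p + t)) % m =
          (r + (m - off q ε % m)) % m)) (fun ε p => gf T S m r τ σ ε p) Y (fun ε => h _)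
    (fun b hb => (key_ex Γ T S m r hm hc hT τ σ b (mem_filter.mp hb).1 (mem_filter.mp hb).2).imp
      fun ε hε => hε.imp fun p hp => ⟨mem_filter.mpr ⟨hp.1, hp.2.1⟩, hp.2.2⟩)
  rwa [Pool.Agent.Helper3.Thin.card_Lab] at hc

end Pool.Agent.Helper7.WR
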