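import Pool.Agent.Helper53.WR.Params

set_option autoImplicit false
set_option linter.unusedVariables false

namespace Pool.Agent.Helper7.WR

open Finset Filter
open Pool.Agent.Helper53.WR

lemma ev_pow (C s : ℝ) : ∀ᶠ k : ℕ in atTop, C * (k : ℝ) ^ s ≤ 2 ^ k := by
  have h := (isLittleO_rpow_exp_pos_mul_atTop s (Real.log_pos one_lt_two)).comp_tendsto
    tendsto_natCast_atTop_atTop
  have hc : (0 : ℝ) < 1 / (|C| + 1) := by positivity
  have h2 := h.def hc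
  filter_upwards [h2] with k hk
  simp only [Function.comp_apply, Real.norm_eq_abs] at hk
  have e1 : |(k : ℝ) ^ s| = (k : ℝ) ^ s := abs_of_nonneg (by positivity)
  have e2 : |Real.exp (Real.log 2 * (k : ℝ))| = (2 : ℝ) ^ k := by
    rw [abs_of_pos (Real.exp_pos _), mul_comm, Real.exp_nat_mul, Real.exp_log (by norm_num)]
  rw [e1, e2] at hk
  have h3 : (0 : ℝ) ≤ (k : ℝ) ^ s := by positivity
  have h4 : C * (k : ℝ) ^ s ≤ (|C| + 1) * (k : ℝ) ^ s := by
    apply mul_le_mul_of_nonneg_right _ h3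
    linarith [le_abs_self C]
  have h5 : (|C| + 1) * (k : ℝ) ^ s ≤ (|C| + 1) * (1 / (|C| + 1) * 2 ^ k) :=
    mul_le_mul_of_nonneg_left hk (by positivity)
  have h6 : (|C| + 1) * (1 / (|C| + 1) * (2 : ℝ) ^ k) = 2 ^ k := by
    have : (|C| + 1) ≠ 0 := by positivity
    field_simp
  linarith

lemma h1_ev (m : ℕ) : ∀ᶠ k : ℕ in atTop, 6 * (k + 1) ^ m ≤ 7 * k ^ m := by
  filter_upwards [eventually_ge_atTop (7 * m)] with k hk
  have hk1 : (0 : ℝ) < (k : ℝ) + 1 := by positivity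
  have hb : (1 : ℝ) + (m : ℝ) * (-(1 / ((k : ℝ) + 1))) ≤ (1 + (-(1 / ((k : ℝ) + 1)))) ^ m := by
    apply one_add_mul_le_pow
    have : 1 / ((k : ℝ) + 1) ≤ 1 := by
      rw [div_le_one hk1]
      linarith [Nat.cast_nonneg (α := ℝ) k]
    linarith
  have e1 : (1 : ℝ) + (-(1 / ((k : ℝ) + 1))) = (k : ℝ) / (k + 1) := by
    field_simp
    ring
  rw [e1, div_pow] at hb
  have h7 : (m : ℝ) * (1 / ((k : ℝ) + 1)) ≤ 1 / 7 := by
    rw [mul_one_div, div_le_div_iff₀ hk1 (by norm_num)]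
    have : ((7 * m : ℕ) : ℝ) ≤ (k : ℝ) := by exact_mod_cast hk
    push_cast at this
    linarith
  have h8 : (6 : ℝ) / 7 ≤ (k : ℝ) ^ m / ((k : ℝ) + 1) ^ m := by
    linarith
  rw [div_le_div_iff₀ (by norm_num) (by positivity)] at h8
  have h9 : (6 : ℝ) * ((k : ℝ) + 1) ^ m ≤ 7 * (k : ℝ) ^ m := by linarith
  exact_mod_cast h9

/-- WR-E2 (the numerical conditions hold for large `k`). -/
theorem num_eventually (M G : ℕ) (hM : 3 ≤ M) (hG : 1 ≤ G) (hGM : G + 2 ≤ M) (C β : ℝ)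
    (hC : 0 ≤ C) (hβ : 0 ≤ β) :
    ∃ k0 : ℕ, ∀ k, k0 ≤ k → Num M G (fun k => ⌊C * ((laP M k + 1 : ℕ) : ℝ) ^ β⌋₊) k := by
  rw [← eventually_atTop]
  filter_upwards [h1_ev (M - 1), eventually_ge_atTop (100 * M), eventually_ge_atTop 1,
    ev_pow 20 (M : ℝ), ev_pow (C * (((4 + 8 * M) * 2 ^ M : ℕ) : ℝ) ^ β) ((M : ℝ) * β)]
    with k a1 a2 a3 a4 a5
  have hkG : (2 : ℝ) ^ k ≤ ((2 ^ k ^ G : ℕ) : ℝ) := by
    have : 2 ^ k ≤ 2 ^ k ^ G := Nat.pow_le_pow_right (by norm_num) (Nat.le_self_pow (by omega) k)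
    exact_mod_cast this
  refine ⟨hM, hG, hGM, a1, a2, ?_, ?_⟩
  · have hla : laP M k + 1 ≤ ((4 + 8 * M) * 2 ^ M) * k ^ M := by
      unfold laP uP
      have b1 : (k + 1) ^ M ≤ 2 ^ M * k ^ M := by
        rw [← mul_pow]
        exact Nat.pow_le_pow_left (by omega) M
      have b2 : (k + 1) ^ (M - 1) ≤ (k + 1) ^ M := Nat.pow_le_pow_right (by omega) (by omega)
      have b3 : 1 ≤ (k + 1) ^ (M - 1) := Nat.one_le_pow _ _ (by omega)
      have b4 : 8 * (M * (k + 1) ^ (M - 1)) ≤ 8 * (M * (2 ^ M * k ^ M)) := by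
        apply Nat.mul_le_mul_left
        apply Nat.mul_le_mul_left
        omega
      have b5 : 1 ≤ M * (k + 1) ^ (M - 1) := Nat.mul_pos (by omega) b3
      have b6 : ((4 + 8 * M) * 2 ^ M) * k ^ M = 4 * (2 ^ M * k ^ M) + 8 * (M * (2 ^ M * k ^ M)) := by
        ring
      rw [b6]
      omega
    apply Nat.floor_le_of_le
    refine le_trans ?_ hkG
    refine le_trans ?_ a5
    rw [mul_assoc]
    apply mul_le_mul_of_nonneg_left _ hC
    rw [Real.rpow_mul (Nat.cast_nonneg k), ← Real.mul_rpow (by positivity) (by positivity)]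
    apply Real.rpow_le_rpow (by positivity) _ hβ
    rw [Real.rpow_natCast]
    exact_mod_cast hla
  · have : (20 : ℝ) * (k : ℝ) ^ M ≤ ((2 ^ k ^ G : ℕ) : ℝ) := by
      rw [Real.rpow_natCast] at a4
      linarith
    exact_mod_cast this

end Pool.Agent.Helper7.WR
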